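import Mathlib
import Pool.Agent.Helper34.LF.St

/-!
# Project LF, module NQ: the number of odd sets of type (2,2)
-/

set_option autoImplicit false

namespace Pool.Agent.Helper12.LF

open Finset Pool.Agent.Helper34.LF

/-- class pairs -/
def PP : Finset (Fin 4 × Fin 4) := univ.filter fun p => p.1 < p.2

/-- class vectors with given value on a pair -/
def DD (p : Fin 4 × Fin 4) (i : ZMod 2) : Finset (Fin 4 → ZMod 2) :=
  univ.filter fun t => t p.1 + t p.2 = i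

theorem PP_card : PP.card = 6 := by decide

theorem DD_card : ∀ p ∈ PP, ∀ i : ZMod 2, (DD p i).card = 8 := by decide

/-- the labels -/
abbrev LL (N : ℕ) : Type :=
  ((ZMod 2 × ZMod 2) × ZMod N) × ((ZMod 2 × ZMod 2) × ZMod N) × ZMod N × ZMod N

/-- the index set -/
def SS (N : ℕ) [NeZero N] :
    Finset ((Σ _ : Fin 4 × Fin 4, (Fin 4 → ZMod 2) × (Fin 4 → ZMod 2)) × LL N) :=
  (PP.sigma fun p => DD p 0 ×ˢ DD p 1) ×ˢ univ

theorem SS_card (N : ℕ) [NeZero N] : (SS N).card = 6144 * N ^ 4 := by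
  have h1 : (PP.sigma fun p => DD p 0 ×ˢ DD p 1).card = 384 := by
    rw [card_sigma]
    have : ∀ p ∈ PP, (DD p 0 ×ˢ DD p 1).card = 64 := by
      intro p hp
      rw [card_product, DD_card p hp 0, DD_card p hp 1]
    rw [sum_congr rfl this, sum_const, PP_card]
    rfl
  unfold SS
  rw [card_product, h1, card_univ]
  simp only [Fintype.card_prod, ZMod.card]
  ring

/-- the map -/
def ff {N : ℕ} (x : (Σ _ : Fin 4 × Fin 4, (Fin 4 → ZMod 2) × (Fin 4 → ZMod 2)) × LL N) :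
    Finset (VA N) × Finset (VB N) :=
  ({(x.1.1.1, x.2.1), (x.1.1.2, x.2.2.1)}, {(x.1.2.1, x.2.2.2.1), (x.1.2.2, x.2.2.2.2)})

theorem mem_SS {N : ℕ} [NeZero N]
    (x : (Σ _ : Fin 4 × Fin 4, (Fin 4 → ZMod 2) × (Fin 4 → ZMod 2)) × LL N) (hx : x ∈ SS N) :
    x.1.1.1 < x.1.1.2 ∧ x.1.2.1 x.1.1.1 + x.1.2.1 x.1.1.2 = 0 ∧
      x.1.2.2 x.1.1.1 + x.1.2.2 x.1.1.2 = 1 := by
  unfold SS at hx
  rw [mem_product, mem_sigma, mem_product] at hx
  obtain ⟨⟨h1, h2, h3⟩, -⟩ := hx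
  exact ⟨(mem_filter.1 h1).2, (mem_filter.1 h2).2, (mem_filter.1 h3).2⟩

theorem pair_eq {α : Type} [DecidableEq α] {a b c d : α} (h : ({a, b} : Finset α) = {c, d}) :
    (a = c ∧ b = d) ∨ (a = d ∧ b = c) := by
  have h' : ({a, b} : Set α) = {c, d} := by
    have := congrArg (fun s : Finset α => (s : Set α)) h
    simpa using this
  exact Set.pair_eq_pair_iff.1 h'

theorem pNQ : StNQ := by
  intro N _
  rw [← SS_card N]
  refine card_le_card_of_injOn ff ?_ ?_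
  · intro x hx
    obtain ⟨h1, h2, h3⟩ := mem_SS x hx
    have ha : (x.1.1.1, x.2.1) ≠ (x.1.1.2, x.2.2.1) := by
      intro h
      exact h1.ne (congrArg Prod.fst h)
    have hb : (x.1.2.1, x.2.2.2.1) ≠ (x.1.2.2, x.2.2.2.2) := by
      intro h
      have h' : x.1.2.1 = x.1.2.2 := congrArg Prod.fst h
      rw [h'] at h2
      rw [h2] at h3
      exact absurd h3 (by decide)
    show ff x ∈ filter _ _
    rw [mem_filter, mem_product, mem_powersetCard, mem_powersetCard]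
    refine ⟨⟨⟨subset_univ _, card_pair ha⟩, subset_univ _, card_pair hb⟩, ?_⟩
    show par {(x.1.1.1, x.2.1), (x.1.1.2, x.2.2.1)}
      {(x.1.2.1, x.2.2.2.1), (x.1.2.2, x.2.2.2.2)} = 1
    unfold par
    rw [sum_pair ha, sum_pair hb, sum_pair hb]
    show x.1.2.1 x.1.1.1 + x.1.2.2 x.1.1.1 + (x.1.2.1 x.1.1.2 + x.1.2.2 x.1.1.2) = 1
    calc x.1.2.1 x.1.1.1 + x.1.2.2 x.1.1.1 + (x.1.2.1 x.1.1.2 + x.1.2.2 x.1.1.2)
        = (x.1.2.1 x.1.1.1 + x.1.2.1 x.1.1.2) + (x.1.2.2 x.1.1.1 + x.1.2.2 x.1.1.2) := by ring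
      _ = 1 := by rw [h2, h3, zero_add]
  · intro x hx y hy hxy
    obtain ⟨h1, h2, h3⟩ := mem_SS x hx
    obtain ⟨g1, g2, g3⟩ := mem_SS y hy
    obtain ⟨⟨⟨k, l⟩, t, t'⟩, α, α', β, β'⟩ := x
    obtain ⟨⟨⟨k2, l2⟩, t2, t2'⟩, α2, α2', β2, β2'⟩ := y
    simp only [] at h1 h2 h3 g1 g2 g3
    unfold ff at hxy
    simp only [Prod.mk.injEq] at hxy
    obtain ⟨e1, e2⟩ := hxy
    rcases pair_eq e1 with ⟨u1, u2⟩ | ⟨u1, u2⟩
    · obtain ⟨rfl, rfl⟩ := Prod.mk.inj u1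
      obtain ⟨rfl, rfl⟩ := Prod.mk.inj u2
      rcases pair_eq e2 with ⟨v1, v2⟩ | ⟨v1, v2⟩
      · obtain ⟨rfl, rfl⟩ := Prod.mk.inj v1
        obtain ⟨rfl, rfl⟩ := Prod.mk.inj v2
        rfl
      · obtain ⟨rfl, rfl⟩ := Prod.mk.inj v1
        rw [h2] at g3
        exact absurd g3 (by decide)
    · have a1 : k = l2 := congrArg Prod.fst u1
      have a2 : l = k2 := congrArg Prod.fst u2
      subst a1 a2
      exact absurd (lt_trans h1 g1) (lt_irrefl _)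

end Pool.Agent.Helper12.LF
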